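import Mathlib

/-! MP_810de6_an, own theorem. Banach spaces that embed in a Banach space with an extended
M-basis. -/

set_option autoImplicit false

open Filter Topology
open scoped ENNReal Classical

namespace Pool.Agent.MBasisChar

universe u

/-- `(x i)` is an extended M-basis of `E` with biorthogonal functionals `f i`. -/
structure IsExtendedMBasis (𝕜 : Type) [RCLike 𝕜] {E : Type u} [NormedAddCommGroup E]
    [NormedSpace 𝕜 E] {I : Type u} (x : I → E) (f : I → (E →L[𝕜] 𝕜)) : Prop where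
  biorthogonal_self : ∀ i, f i (x i) = 1
  biorthogonal_ne : ∀ i j, i ≠ j → f j (x i) = 0
  total : ∀ v : E, (∀ i, f i v = 0) → v = 0
  fundamental : (Submodule.span 𝕜 (Set.range x)).topologicalClosure = ⊤

variable {𝕜 : Type} [RCLike 𝕜]

/-- `l^1` -/
abbrev L1 (𝕜 : Type) [RCLike 𝕜] (Γ : Type u) := lp (fun _ : Γ => 𝕜) 1

/-- `l^∞` -/
abbrev Linf (𝕜 : Type) [RCLike 𝕜] (Γ : Type u) := lp (fun _ : Γ => 𝕜) ∞

section

variable {Γ : Type u}

theorem summable_norm (b : L1 𝕜 Γ) : Summable fun i => ‖b i‖ := by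
  have h := lp.memℓp b
  rw [memℓp_gen_iff (by simp)] at h
  simpa using h

theorem norm_eq (b : L1 𝕜 Γ) : ‖b‖ = ∑' i, ‖b i‖ := by
  rw [lp.norm_eq_tsum_rpow (by simp)]
  simp

theorem summable_coef (c : Γ → 𝕜) (C : ℝ) (hc : ∀ γ, ‖c γ‖ ≤ C) (b : L1 𝕜 Γ) :
    Summable fun γ => b γ * c γ := by
  refine Summable.of_norm_bounded ((summable_norm b).mul_right C) fun γ => ?_
  rw [norm_mul]
  exact mul_le_mul_of_nonneg_left (hc γ) (norm_nonneg _)

theorem exists_fun (c : Γ → 𝕜) (C : ℝ) (hc : ∀ γ, ‖c γ‖ ≤ C) :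
    ∃ φ : L1 𝕜 Γ →L[𝕜] 𝕜, ∀ b, φ b = ∑' γ, b γ * c γ := by
  refine ⟨LinearMap.mkContinuous
    { toFun := fun b => ∑' γ, b γ * c γ
      map_add' := by
        intro b d
        rw [← Summable.tsum_add (summable_coef c C hc b) (summable_coef c C hc d)]
        refine tsum_congr fun γ => ?_
        rw [lp.coeFn_add, Pi.add_apply]
        ring
      map_smul' := by
        intro a b
        rw [RingHom.id_apply, smul_eq_mul, ← tsum_mul_left]
        refine tsum_congr fun γ => ?_
        rw [lp.coeFn_smul, Pi.smul_apply, smul_eq_mul]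
        ring } C (fun b => ?_), fun b => rfl⟩
  change ‖∑' γ, b γ * c γ‖ ≤ C * ‖b‖
  have h1 : Summable fun γ => ‖b γ * c γ‖ :=
    Summable.of_nonneg_of_le (fun _ => norm_nonneg _) (fun γ => by
      rw [norm_mul]
      exact mul_le_mul_of_nonneg_left (hc γ) (norm_nonneg _)) ((summable_norm b).mul_right C)
  refine (norm_tsum_le_tsum_norm h1).trans ?_
  rw [norm_eq, mul_comm C, ← tsum_mul_right]
  refine h1.tsum_le_tsum (fun γ => ?_) ((summable_norm b).mul_right C)
  rw [norm_mul]
  exact mul_le_mul_of_nonneg_left (hc γ) (norm_nonneg _)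

/-- unit vectors -/
noncomputable def uv (𝕜 : Type) [RCLike 𝕜] {Γ : Type u} (γ : Γ) : L1 𝕜 Γ := lp.single 1 γ (1 : 𝕜)

theorem uv_apply (γ γ' : Γ) : (uv 𝕜 γ) γ' = if γ' = γ then 1 else 0 := by
  unfold uv
  split_ifs with h
  · subst h; exact lp.single_apply_self _ _ _
  · exact lp.single_apply_ne _ _ _ h

theorem norm_uv (γ : Γ) : ‖uv 𝕜 γ‖ = 1 := by
  unfold uv
  rw [lp.norm_single (by simp), norm_one]

theorem tsum_single (c : Γ → 𝕜) (γ : Γ) :
    ∑' γ', (uv 𝕜 γ) γ' * c γ' = c γ := by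
  rw [tsum_eq_single γ]
  · rw [uv_apply, if_pos rfl, one_mul]
  · intro γ' h
    rw [uv_apply, if_neg h, zero_mul]

/-- coordinates of an element of `l^1` along an injective sequence tend to zero -/
theorem tendsto_coord (b : L1 𝕜 Γ) (e : ℕ → Γ) (he : Function.Injective e) :
    Tendsto (fun n => b (e n)) atTop (𝓝 0) := by
  have h1 := (summable_norm b).comp_injective he
  have h2 := h1.tendsto_atTop_zero
  exact tendsto_zero_iff_norm_tendsto_zero.2 h2

/-- a closed subspace of `l^1` containing the unit vectors is everything -/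
theorem mem_of_single (S : Submodule 𝕜 (L1 𝕜 Γ)) (hS : IsClosed (S : Set (L1 𝕜 Γ)))
    (h : ∀ γ, uv 𝕜 γ ∈ S) (b : L1 𝕜 Γ) : b ∈ S := by
  have h1 := lp.hasSum_single (p := 1) (by simp) b
  refine hS.mem_of_tendsto h1 (Eventually.of_forall fun s => ?_)
  refine S.sum_mem fun γ _ => ?_
  have : (lp.single 1 γ (b γ) : L1 𝕜 Γ) = b γ • uv 𝕜 γ := by
    unfold uv
    rw [← lp.single_smul, smul_eq_mul, mul_one]
  rw [this]
  exact S.smul_mem _ (h γ)

end

section construction

variable {Z : Type u} [NormedAddCommGroup Z] [NormedSpace 𝕜 Z] {I : Type u}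

/-- the index set -/
abbrev Idx (Z I : Type u) : Type u := Z ⊕ (I × ℕ)

/-- coefficients of the functional with index `(i, n)` on `l^1` -/
noncomputable def coef (T : Z →L[𝕜] Linf 𝕜 I) (i : I) (n : ℕ) : Idx Z I → 𝕜
  | Sum.inl z => if ‖T z i‖ ≤ (n : ℝ) + 1 then -(T z i) else 0
  | Sum.inr p => if p = (i, n) then 1 else 0

theorem norm_coef (T : Z →L[𝕜] Linf 𝕜 I) (i : I) (n : ℕ) (γ : Idx Z I) :
    ‖coef T i n γ‖ ≤ (n : ℝ) + 1 := by
  rcases γ with z | p
  · simp only [coef]
    split_ifs with h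
    · rwa [norm_neg]
    · rw [norm_zero]; positivity
  · simp only [coef]
    split_ifs
    · rw [norm_one]; linarith [(Nat.cast_nonneg n : (0 : ℝ) ≤ n)]
    · rw [norm_zero]; positivity

theorem finite_big (T : Z →L[𝕜] Linf 𝕜 I)
    (hT : ∀ z, Tendsto (fun i => T z i) cofinite (𝓝 0)) (z : Z) :
    {p : I × ℕ | (p.2 : ℝ) + 1 < ‖T z p.1‖}.Finite := by
  have h1 : {i : I | 1 ≤ ‖T z i‖}.Finite := by
    have h := (hT z).eventually (Metric.ball_mem_nhds (0 : 𝕜) one_pos)
    have h2 : {i : I | ¬ (T z i ∈ Metric.ball (0 : 𝕜) 1)}.Finite := h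
    refine h2.subset fun i hi => ?_
    simp only [Metric.mem_ball, dist_zero_right, Set.mem_ofPred_eq, not_lt] at hi ⊢
    exact hi
  obtain ⟨m, hm⟩ := exists_nat_ge ‖T z‖
  refine (h1.prod (Set.finite_lt_nat m)).subset ?_
  rintro ⟨i, n⟩ hp
  simp only [Set.mem_ofPred_eq] at hp
  have h3 : ‖T z i‖ ≤ ‖T z‖ := lp.norm_apply_le_norm (by simp) _ _
  have hn : (0 : ℝ) ≤ n := Nat.cast_nonneg n
  refine ⟨by simp only [Set.mem_ofPred_eq]; linarith, ?_⟩
  simp only [Set.mem_ofPred_eq]
  have : (n : ℝ) < m := by linarith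
  exact_mod_cast this

/-- the construction : `Z × l^1` has an extended M-basis -/
theorem exists_mbasis (T : Z →L[𝕜] Linf 𝕜 I) (hTi : Function.Injective T)
    (hT : ∀ z, Tendsto (fun i => T z i) cofinite (𝓝 0)) :
    ∃ (x : Idx Z I → Z × L1 𝕜 (Idx Z I)) (f : Idx Z I → ((Z × L1 𝕜 (Idx Z I)) →L[𝕜] 𝕜)),
      IsExtendedMBasis 𝕜 x f := by
  -- the functionals
  have hφ : ∀ p : I × ℕ, ∃ φ : L1 𝕜 (Idx Z I) →L[𝕜] 𝕜, ∀ b, φ b = ∑' γ, b γ * coef T p.1 p.2 γ :=
    fun p => exists_fun _ _ (norm_coef T p.1 p.2)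
  choose φ hφ using hφ
  let g : I → (Z →L[𝕜] 𝕜) := fun i => (lp.evalCLM 𝕜 (fun _ : I => 𝕜) ∞ i).comp T
  have hg : ∀ i z, g i z = T z i := fun i z => rfl
  let e : Idx Z I → L1 𝕜 (Idx Z I) := uv 𝕜
  let B : Z → Finset (I × ℕ) := fun z => (finite_big T hT z).toFinset
  have hB : ∀ z p, p ∈ B z ↔ (p.2 : ℝ) + 1 < ‖T z p.1‖ := fun z p => by
    simp [B]
  let x : Idx Z I → Z × L1 𝕜 (Idx Z I) := fun γ => match γ with
    | Sum.inl z => (z, e (Sum.inl z) - ∑ p ∈ B z, (T z p.1) • e (Sum.inr p))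
    | Sum.inr p => (0, e (Sum.inr p))
  let f : Idx Z I → ((Z × L1 𝕜 (Idx Z I)) →L[𝕜] 𝕜) := fun γ => match γ with
    | Sum.inl z => (lp.evalCLM 𝕜 (fun _ : Idx Z I => 𝕜) 1 (Sum.inl z)).comp
        (ContinuousLinearMap.snd 𝕜 Z (L1 𝕜 (Idx Z I)))
    | Sum.inr p => (g p.1).comp (ContinuousLinearMap.fst 𝕜 Z (L1 𝕜 (Idx Z I))) +
        (φ p).comp (ContinuousLinearMap.snd 𝕜 Z (L1 𝕜 (Idx Z I)))
  have hfl : ∀ z (v : Z × L1 𝕜 (Idx Z I)), f (Sum.inl z) v = v.2 (Sum.inl z) := fun z v => rfl
  have hfr : ∀ p (v : Z × L1 𝕜 (Idx Z I)), f (Sum.inr p) v = T v.1 p.1 + φ p v.2 :=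
    fun p v => rfl
  have hφe : ∀ p γ, φ p (e γ) = coef T p.1 p.2 γ := by
    intro p γ
    rw [hφ, tsum_single]
  have hee : ∀ γ γ', (e γ) γ' = if γ' = γ then 1 else 0 := by
    intro γ γ'
    convert uv_apply (𝕜 := 𝕜) γ γ'
  have hxl1 : ∀ z, (x (Sum.inl z)).2 = e (Sum.inl z) - ∑ p ∈ B z, (T z p.1) • e (Sum.inr p) :=
    fun z => rfl
  -- values
  have v1 : ∀ z z', f (Sum.inl z') (x (Sum.inl z)) = if z' = z then 1 else 0 := by
    intro z z'
    rw [hfl, hxl1, lp.coeFn_sub, Pi.sub_apply, hee, lp.coeFn_sum, Finset.sum_apply]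
    have : ∑ p ∈ B z, ((T z p.1) • e (Sum.inr p) : L1 𝕜 (Idx Z I)) (Sum.inl z') = 0 := by
      refine Finset.sum_eq_zero fun p _ => ?_
      rw [lp.coeFn_smul, Pi.smul_apply, hee]
      simp
    rw [this, sub_zero]
    simp [Sum.inl_injective.eq_iff]
  have v2 : ∀ z p, f (Sum.inl z) (x (Sum.inr p)) = 0 := by
    intro z p
    rw [hfl]
    change (e (Sum.inr p)) (Sum.inl z) = 0
    rw [hee]
    simp
  have v3 : ∀ p q, f (Sum.inr q) (x (Sum.inr p)) = if p = q then 1 else 0 := by
    intro p q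
    rw [hfr]
    change T 0 q.1 + φ q (e (Sum.inr p)) = _
    rw [hφe, map_zero]
    simp [coef]
  have v4 : ∀ z q, f (Sum.inr q) (x (Sum.inl z)) = 0 := by
    intro z q
    rw [hfr, hxl1]
    change T z q.1 + φ q (e (Sum.inl z) - ∑ p ∈ B z, (T z p.1) • e (Sum.inr p)) = 0
    rw [map_sub, map_sum, hφe]
    have h1 : ∑ p ∈ B z, φ q ((T z p.1) • e (Sum.inr p)) =
        if q ∈ B z then T z q.1 else 0 := by
      have : ∀ p ∈ B z, φ q ((T z p.1) • e (Sum.inr p)) = if p = q then T z q.1 else 0 := by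
        intro p _
        rw [map_smul, hφe, smul_eq_mul]
        by_cases h : p = q
        · subst h; simp [coef]
        · simp [coef, h]
      rw [Finset.sum_congr rfl this, Finset.sum_ite_eq' (B z) q]
    rw [h1]
    simp only [coef]
    by_cases h : ‖T z q.1‖ ≤ (q.2 : ℝ) + 1
    · have h2 : q ∉ B z := by rw [hB]; exact not_lt.2 h
      rw [if_pos h, if_neg h2]
      ring
    · have h2 : q ∈ B z := by rw [hB]; exact not_le.1 h
      rw [if_neg h, if_pos h2]
      ring
  refine ⟨x, f, ?_, ?_, ?_, ?_⟩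
  · rintro (z | p)
    · rw [v1, if_pos rfl]
    · rw [v3, if_pos rfl]
  · rintro (z | p) (z' | q) hne
    · rw [v1, if_neg]
      rintro rfl
      exact hne rfl
    · exact v4 z q
    · exact v2 z' p
    · rw [v3, if_neg]
      rintro rfl
      exact hne rfl
  · -- total
    rintro ⟨z, b⟩ hv
    have hb1 : ∀ z', b (Sum.inl z') = 0 := fun z' => by
      have := hv (Sum.inl z')
      rwa [hfl] at this
    have hb2 : ∀ p, φ p b = b (Sum.inr p) := by
      intro p
      rw [hφ, tsum_eq_single (Sum.inr p : Idx Z I)]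
      · simp [coef]
      · rintro (z' | q) h
        · rw [hb1, zero_mul]
        · have : q ≠ p := fun h' => h (by rw [h'])
          have h3 : ¬ (q = (p.1, p.2)) := by simpa using this
          simp only [coef]
          rw [if_neg h3, mul_zero]
    have hb3 : ∀ p, T z p.1 + b (Sum.inr p) = 0 := by
      intro p
      have := hv (Sum.inr p)
      rw [hfr, hb2] at this
      exact this
    have hz : ∀ i, T z i = 0 := by
      intro i
      have h1 : Tendsto (fun n : ℕ => b (Sum.inr (i, n))) atTop (𝓝 0) :=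
        tendsto_coord b (fun n => Sum.inr (i, n)) (fun m n h => by
          have := Sum.inr_injective h
          simpa using this)
      have h2 : (fun n : ℕ => b (Sum.inr (i, n))) = fun _ => -(T z i) := by
        funext n
        have := hb3 (i, n)
        exact eq_neg_of_add_eq_zero_right this
      rw [h2] at h1
      have h3 := tendsto_nhds_unique h1 tendsto_const_nhds
      exact neg_eq_zero.1 h3.symm
    have hz0 : z = 0 := by
      apply hTi
      rw [map_zero]
      exact lp.ext (funext hz)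
    have hb0 : b = 0 := by
      refine lp.ext (funext fun γ => ?_)
      rcases γ with z' | p
      · exact hb1 z'
      · have := hb3 p
        rw [hz, zero_add] at this
        exact this
    rw [hz0, hb0]
    rfl
  · -- fundamental
    set S := (Submodule.span 𝕜 (Set.range x)).topologicalClosure with hS
    have hSc : IsClosed (S : Set (Z × L1 𝕜 (Idx Z I))) :=
      Submodule.isClosed_topologicalClosure _
    have hx : ∀ γ, x γ ∈ S := fun γ =>
      Submodule.le_topologicalClosure _ (Submodule.subset_span ⟨γ, rfl⟩)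
    have s1 : ∀ p, ((0 : Z), e (Sum.inr p)) ∈ S := fun p => hx (Sum.inr p)
    have s2 : ∀ z, (z, e (Sum.inl z)) ∈ S := by
      intro z
      have h1 : ∑ p ∈ B z, (T z p.1) • ((0 : Z), e (Sum.inr p)) ∈ S :=
        S.sum_mem fun p _ => S.smul_mem _ (s1 p)
      have h2 := S.add_mem (hx (Sum.inl z)) h1
      have h3 : x (Sum.inl z) + ∑ p ∈ B z, (T z p.1) • ((0 : Z), e (Sum.inr p)) =
          (z, e (Sum.inl z)) := by
        have h4 : ∑ p ∈ B z, (T z p.1) • ((0 : Z), e (Sum.inr p)) =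
            ((0 : Z), ∑ p ∈ B z, (T z p.1) • e (Sum.inr p)) := by
          refine Prod.ext ?_ ?_
          · rw [Prod.fst_sum]
            simp
          · rw [Prod.snd_sum]
            rfl
        rw [h4]
        refine Prod.ext ?_ ?_
        · simp [x]
        · simp [x]
      rwa [h3] at h2
    have s3 : ∀ z, (z, (0 : L1 𝕜 (Idx Z I))) ∈ S := by
      intro z
      have h1 : Tendsto (fun k : ℕ => ((((k : 𝕜) + 1)⁻¹ •
          ((((k : 𝕜) + 1) • z, e (Sum.inl (((k : 𝕜) + 1) • z))) : Z × L1 𝕜 (Idx Z I)))))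
          atTop (𝓝 (z, (0 : L1 𝕜 (Idx Z I)))) := by
        have hne : ∀ k : ℕ, (k : 𝕜) + 1 ≠ 0 := fun k => by
          exact_mod_cast Nat.succ_ne_zero k
        have h2 : ∀ k : ℕ, (((k : 𝕜) + 1)⁻¹ •
          ((((k : 𝕜) + 1) • z, e (Sum.inl (((k : 𝕜) + 1) • z))) : Z × L1 𝕜 (Idx Z I))) =
            (z, ((k : 𝕜) + 1)⁻¹ • e (Sum.inl (((k : 𝕜) + 1) • z))) := by
          intro k
          rw [Prod.smul_mk, inv_smul_smul₀ (hne k)]
        simp only [h2]
        refine Tendsto.prodMk_nhds tendsto_const_nhds ?_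
        rw [tendsto_zero_iff_norm_tendsto_zero]
        have h3 : ∀ k : ℕ, ‖((k : 𝕜) + 1)⁻¹ • e (Sum.inl (((k : 𝕜) + 1) • z))‖ =
            1 / ((k : ℝ) + 1) := by
          intro k
          have h4 : ‖(k : 𝕜) + 1‖ = (k : ℝ) + 1 := by
            have : ((k : 𝕜) + 1) = (((k + 1 : ℕ)) : 𝕜) := by push_cast; ring
            rw [this, RCLike.norm_natCast]
            push_cast; ring
          have h5 : ‖e (Sum.inl (((k : 𝕜) + 1) • z))‖ = 1 := norm_uv _
          rw [norm_smul, norm_inv, h4, h5, mul_one, one_div]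
        simp only [h3]
        exact tendsto_one_div_add_atTop_nhds_zero_nat
      exact hSc.mem_of_tendsto h1 (Eventually.of_forall fun k => S.smul_mem _ (s2 _))
    have s4 : ∀ γ, ((0 : Z), e γ) ∈ S := by
      rintro (z | p)
      · have := S.sub_mem (s2 z) (s3 z)
        simpa using this
      · exact s1 p
    have s5 : ∀ b : L1 𝕜 (Idx Z I), ((0 : Z), b) ∈ S := by
      intro b
      have := mem_of_single (S.comap (LinearMap.inr 𝕜 Z (L1 𝕜 (Idx Z I)))) (by
        have : Continuous fun b : L1 𝕜 (Idx Z I) => ((0 : Z), b) := by fun_prop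
        exact hSc.preimage this) (fun γ => s4 γ) b
      exact this
    rw [eq_top_iff]
    rintro ⟨z, b⟩ _
    have := S.add_mem (s3 z) (s5 b)
    simpa using this

end construction

/-- a bounded family of functionals as an operator into `l^∞` -/
theorem exists_operator {Z : Type u} [NormedAddCommGroup Z] [NormedSpace 𝕜 Z] {I : Type u}
    (g : I → (Z →L[𝕜] 𝕜)) (C : ℝ) (hg : ∀ i, ‖g i‖ ≤ C) :
    ∃ T : Z →L[𝕜] Linf 𝕜 I, ∀ z i, T z i = g i z := by
  have hle : ∀ i z, ‖g i z‖ ≤ |C| * ‖z‖ := by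
    intro i z
    refine ((g i).le_opNorm z).trans ?_
    exact mul_le_mul_of_nonneg_right ((hg i).trans (le_abs_self C)) (norm_nonneg z)
  exact ⟨LinearMap.mkContinuous
    { toFun := fun z => ⟨fun i => g i z, memℓp_infty ⟨|C| * ‖z‖, by
        rintro _ ⟨i, rfl⟩
        exact hle i z⟩⟩
      map_add' := by
        intro v w
        refine lp.ext (funext fun i => ?_)
        simp only [map_add]
        rfl
      map_smul' := by
        intro a v
        refine lp.ext (funext fun i => ?_)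
        simp only [map_smul, smul_eq_mul, RingHom.id_apply]
        rfl } |C| (fun z =>
      lp.norm_le_of_forall_le (by positivity) (fun i => hle i z)), fun z i => rfl⟩

/-- a space with an extended M-basis injects into `c_0(I)` -/
theorem injects_of_mbasis {E : Type u} [NormedAddCommGroup E] [NormedSpace 𝕜 E] {I : Type u}
    (x : I → E) (f : I → (E →L[𝕜] 𝕜)) (h : IsExtendedMBasis 𝕜 x f) :
    ∃ T : E →L[𝕜] Linf 𝕜 I, Function.Injective T ∧
      ∀ v, Tendsto (fun i => T v i) cofinite (𝓝 0) := by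
  have hf0 : ∀ i, 0 < ‖f i‖ := by
    intro i
    rw [norm_pos_iff]
    intro h0
    have := h.biorthogonal_self i
    rw [h0] at this
    simp at this
  have hle : ∀ i v, ‖((‖f i‖ : 𝕜))⁻¹ * f i v‖ ≤ ‖v‖ := by
    intro i v
    rw [norm_mul, norm_inv, RCLike.norm_ofReal, abs_of_pos (hf0 i), inv_mul_le_iff₀ (hf0 i)]
    exact (f i).le_opNorm v
  let T : E →L[𝕜] Linf 𝕜 I := LinearMap.mkContinuous
    { toFun := fun v => ⟨fun i => ((‖f i‖ : 𝕜))⁻¹ * f i v, memℓp_infty ⟨‖v‖, by
        rintro _ ⟨i, rfl⟩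
        exact hle i v⟩⟩
      map_add' := by
        intro v w
        refine lp.ext (funext fun i => ?_)
        simp only [map_add, mul_add]
        rfl
      map_smul' := by
        intro a v
        refine lp.ext (funext fun i => ?_)
        simp only [map_smul, smul_eq_mul, RingHom.id_apply]
        change _ = a * _
        ring } 1 (fun v => by
      rw [one_mul]
      exact lp.norm_le_of_forall_le (norm_nonneg _) (fun i => hle i v))
  have hT : ∀ v i, T v i = ((‖f i‖ : 𝕜))⁻¹ * f i v := fun v i => rfl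
  refine ⟨T, ?_, ?_⟩
  · intro v w hvw
    have h1 : ∀ i, f i (v - w) = 0 := by
      intro i
      have h2 : T v i = T w i := by rw [hvw]
      rw [hT, hT] at h2
      have h3 : ((‖f i‖ : 𝕜))⁻¹ ≠ 0 := inv_ne_zero (by exact_mod_cast (hf0 i).ne')
      have h4 := mul_left_cancel₀ h3 h2
      rw [map_sub, h4, sub_self]
    exact sub_eq_zero.1 (h.total _ h1)
  · intro v
    rw [Metric.tendsto_nhds]
    intro ε hε
    have hv : v ∈ (Submodule.span 𝕜 (Set.range x)).topologicalClosure := by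
      rw [h.fundamental]; trivial
    have hv' : v ∈ closure ((Submodule.span 𝕜 (Set.range x) : Submodule 𝕜 E) : Set E) := hv
    obtain ⟨w, hw, hvw⟩ := Metric.mem_closure_iff.1 hv' ε hε
    have hfin : ∀ w ∈ Submodule.span 𝕜 (Set.range x), {i | f i w ≠ 0}.Finite := by
      intro w hw
      induction hw using Submodule.span_induction with
      | mem y hy =>
        obtain ⟨j, rfl⟩ := hy
        refine (Set.finite_singleton j).subset fun i hi => ?_
        by_contra hne
        exact hi (h.biorthogonal_ne j i (fun h' => hne h'.symm))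
      | zero => simp
      | add y z _ _ hy hz =>
        refine (hy.union hz).subset fun i hi => ?_
        by_contra hcon
        simp only [Set.mem_union, Set.mem_ofPred_eq, not_or, not_not] at hcon
        exact hi (by rw [map_add, hcon.1, hcon.2, add_zero])
      | smul a y _ hy =>
        refine hy.subset fun i hi => ?_
        simp only [Set.mem_ofPred_eq] at hi ⊢
        intro h0
        exact hi (by rw [map_smul, h0, smul_zero])
    have hev : ∀ᶠ i in cofinite, f i w = 0 := by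
      have := hfin w hw
      rw [Filter.eventually_cofinite]
      exact this
    filter_upwards [hev] with i hi
    rw [dist_zero_right, hT]
    have h1 : f i v = f i (v - w) := by rw [map_sub, hi, sub_zero]
    rw [h1]
    rw [dist_eq_norm] at hvw
    exact (hle i (v - w)).trans_lt hvw

end Pool.Agent.MBasisChar
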